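import Pool.Agent.Y853.HM.Fin

/-!
# One-sided bounds in mean for the Mertens function

Let `M(u) = ∑_{n ≤ u} μ(n)`, `f(v) = M(e^v) e^{-v/2}` and for a sign `s = 1` or `s = -1` let
`A(s) = liminf_{δ → 0+} δ ∫_0^∞ max(s f(v), 0) e^{-δv} dv`, an element of `[0, ∞]`.

* `A(1) = A(-1)`; write `A` for this number.  Each half
  `∫_1^x (max(s M(u), 0)/u)² du ≤ C log x` of the weak Mertens bound implies `A ≤ √C`, and so does the weaker
  one-sided bound `∫_1^x max(s M(u), 0) u^{-3/2} du ≤ √C log x`.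
* If `A < ∞`, then the Riemann Hypothesis holds, all nontrivial zeros are simple, `1/|ρ ζ'(ρ)| ≤ 2A` for all of
  them, and `e^{iγv} ↦ 1/(ρ ζ'(ρ))` is the Fourier transform of a measure on the Bohr compactification:
  `|∑_{t ∈ T} q_t c(t)| ≤ 2A sup_v |∑_{t ∈ T} q_t e^{-itv}|` for all finite sets `T` of real numbers and all
  complex `q_t`, where `c(γ) = 1/(ρ ζ'(ρ))` if `ρ = 1/2 + iγ` is a zero and `c(t) = 0` otherwise.  Moreover
  `∑_{γ ∈ E} 1/|ρ ζ'(ρ)|² ≤ 4 e A²` for every finite set `E` for which no signed sum of an odd number `≥ 3` of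
  distinct members of `E` is an ordinate.
* If the set of all positive ordinates has this last property (in particular if the positive ordinates are linearly
  independent over `ℚ`), then the weak Mertens hypothesis, each of its two halves, and `A < ∞` are all
  equivalent, and `4A² ≤ lim_{x → ∞} (1/log x) ∫_1^x (M(u)/u)² du ≤ 8 e A²`.

Idea of the proof: Landau's theorem, the fact that `1/(s ζ(s))` is regular at `s = 1/2` (so `f` has mean `0`),
and the imaginary part of the Riesz product `∏ (1 + i a_γ cos(γ v + φ_γ))`, which is bounded by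
`exp(½ ∑ a_γ²)`.
-/

set_option autoImplicit false

open Filter Topology MeasureTheory

namespace Pool.Agent.Results.MP_323ce2_nt.HalfWeakMertens

/-- the Mertens function -/
noncomputable def M (u : ℝ) : ℝ := ∑ n ∈ Finset.Icc 1 ⌊u⌋₊, ((ArithmeticFunction.moebius n : ℤ) : ℝ)

/-- the weak Mertens hypothesis (Q1) -/
def WeakMertens : Prop := ∃ C : ℝ, ∀ x : ℝ, 2 ≤ x → ∫ u in (1:ℝ)..x, (M u / u) ^ 2 ≤ C * Real.log x

/-- one half of the weak Mertens hypothesis -/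
def HalfMertens (s : ℝ) : Prop := ∃ C : ℝ, ∀ x : ℝ, 2 ≤ x →
  ∫ u in (1:ℝ)..x, (max (s * M u) 0 / u) ^ 2 ≤ C * Real.log x

/-- `f(v) = M(e^v) e^{-v/2}` -/
noncomputable def f (v : ℝ) : ℝ := M (Real.exp v) * Real.exp (-(v / 2))

/-- `δ ∫_0^∞ max(s f(v), 0) e^{-δv} dv`, an element of `[0, ∞]` -/
noncomputable def abelMean (s δ : ℝ) : ENNReal :=
  ENNReal.ofReal δ * ∫⁻ v in Set.Ioi (0 : ℝ), ENNReal.ofReal (max (s * f v) 0 * Real.exp (-(δ * v)))

/-- the lower limit of the Abel means as `δ → 0+` -/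
noncomputable def lowerMean (s : ℝ) : ENNReal := liminf (abelMean s) (𝓝[>] 0)

/-- the nontrivial zeros of the Riemann zeta function -/
def NT : Set ℂ := {s | riemannZeta s = 0 ∧ 0 < s.re ∧ s.re < 1}

/-- the point `1/2 + it` -/
noncomputable def pt (t : ℝ) : ℂ := 1 / 2 + t * Complex.I

open Classical in
/-- `1/(ρ ζ'(ρ))` if `ρ = 1/2 + it` is a zero, and `0` otherwise -/
noncomputable def coeff (t : ℝ) : ℂ :=
  if riemannZeta (pt t) = 0 then 1 / (pt t * deriv riemannZeta (pt t)) else 0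

/-- the positive ordinates of the zeros on the critical line -/
def Ordinates : Set ℝ := {y | 0 < y ∧ riemannZeta (pt y) = 0}

/-- no signed sum of an odd number `≥ 3` of distinct members of `E` is the ordinate of a zero on the
critical line -/
def OddFree (E : Set ℝ) : Prop := ∀ (S : Finset ℝ) (σ : ℝ → ℝ), (S : Set ℝ) ⊆ E →
  (∀ y, σ y = 1 ∨ σ y = -1) → Odd S.card → 3 ≤ S.card → riemannZeta (pt (∑ y ∈ S, σ y * y)) ≠ 0

theorem result :
    lowerMean 1 = lowerMean (-1) ∧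
    (∀ s C : ℝ, (s = 1 ∨ s = -1) → 0 < C →
      ((∀ᶠ x : ℝ in atTop, ∫ u in (1:ℝ)..x, (max (s * M u) 0 / u) ^ 2 ≤ C * Real.log x) →
        lowerMean s ≤ ENNReal.ofReal (Real.sqrt C)) ∧
      ((∀ᶠ x : ℝ in atTop, ∫ u in (1:ℝ)..x, max (s * M u) 0 * u ^ (-(3 / 2) : ℝ) ≤ C * Real.log x) →
        lowerMean s ≤ ENNReal.ofReal C)) ∧
    (lowerMean 1 ≠ ⊤ →
      (∀ ρ ∈ NT, ρ.re = 1 / 2 ∧ deriv riemannZeta ρ ≠ 0 ∧
        1 / ‖ρ * deriv riemannZeta ρ‖ ≤ 2 * (lowerMean 1).toReal) ∧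
      (∀ (T : Finset ℝ) (q : ℝ → ℂ) (B : ℝ),
        (∀ v : ℝ, ‖∑ t ∈ T, q t * Complex.exp (-((t * v : ℝ) * Complex.I))‖ ≤ B) →
        ‖∑ t ∈ T, q t * coeff t‖ ≤ 2 * (lowerMean 1).toReal * B) ∧
      (∀ E : Finset ℝ, OddFree (E : Set ℝ) →
        ∑ y ∈ E, ‖coeff y‖ ^ 2 ≤ 4 * Real.exp 1 * (lowerMean 1).toReal ^ 2)) ∧
    (OddFree Ordinates →
      (∀ s : ℝ, s = 1 ∨ s = -1 → (WeakMertens ↔ HalfMertens s)) ∧
      (WeakMertens ↔ lowerMean 1 ≠ ⊤) ∧
      (lowerMean 1 ≠ ⊤ → ∃ L : ℝ,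
        Tendsto (fun x : ℝ => (∫ u in (1:ℝ)..x, (M u / u) ^ 2) / Real.log x) atTop (𝓝 L) ∧
        4 * (lowerMean 1).toReal ^ 2 ≤ L ∧ L ≤ 8 * Real.exp 1 * (lowerMean 1).toReal ^ 2)) ∧
    (LinearIndependent ℚ (fun y : Ordinates => (y : ℝ)) → OddFree Ordinates) := by
  refine ⟨Pool.Agent.Y853.HM.low_eq, fun s C hs hC => ⟨Pool.Agent.Y853.HM.half_sq hs hC,
    Pool.Agent.Y853.HM.half_L1 hs hC⟩, fun hA => ⟨fun ρ hρ =>
      ⟨(Pool.Agent.Y853.HM.zeros_A hA hρ).1, (Pool.Agent.Y853.HM.zeros_A hA hρ).2,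
        Pool.Agent.Y853.HM.coef_A hA hρ⟩,
      fun T q B hB => Pool.Agent.Y853.HM.dual_A hA T q hB,
      fun E hE => Pool.Agent.Y853.HM.riesz_A hA hE⟩, fun hN => ⟨fun s hs =>
        ⟨fun h => Pool.Agent.Y853.HM.WM_half h hs, fun h =>
          Pool.Agent.Y853.HM.WM_of (Pool.Agent.Y853.HM.half_ne hs h) hN⟩,
        ⟨Pool.Agent.Y853.HM.WM_ne, fun hA => Pool.Agent.Y853.HM.WM_of hA hN⟩,
        fun hA => Pool.Agent.Y853.HM.limit_A hA hN⟩, Pool.Agent.Y853.HM.LI_NoOdd⟩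

end Pool.Agent.Results.MP_323ce2_nt.HalfWeakMertens
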