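import Pool.Agent.Y853.HM.Loc2

/-!
# Half of the weak Mertens bound and local square sums over zeros

Let `M(u) = ∑_{n ≤ u} μ(n)` and suppose that ONE half of the weak Mertens bound holds: for one sign `s`,
`∫_1^x (max(s M(u), 0)/u)² du ≤ C log x` for all large `x`.  Let `ℓ` be such that `ζ(1/2 + it) ≠ 0` for
`|t| < ℓ` (numerically `ℓ = 14.13` is admissible), `T` a finite set of real numbers with mutual distances
less than `ℓ`, and `c(t) = 1/(ρ ζ'(ρ))` if `ρ = 1/2 + it` is a zero, `c(t) = 0` otherwise.  Then for all complex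
numbers `q_t`

`|∑_{t ∈ T} q_t c(t)|² ≤ 2 C ((mean of |Q|⁴)^{1/2} + mean of |Q|²)`, `Q(v) = ∑_{t ∈ T} q_t e^{-itv}`,

where the means are written as sums over additive quadruples and over `T`; and if `T` has no nontrivial
additive quadruples then `∑_{t ∈ T} |c(t)|² ≤ 2 (1 + √2) C`.

Idea: `Φ = (|Q|²/λ + λ)/2` is a nonnegative majorant of `|Q|` whose frequencies are smaller than the first
ordinate, so the mean of `M(e^v) e^{-v/2} Φ(v)` is `0`; hence the positive and the negative part of `M` have the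
same mean against `Φ`, although the negative part need not be bounded in mean square.
-/

set_option autoImplicit false

open Filter Topology MeasureTheory

namespace Pool.Agent.Results.MP_323ce2_nt.LocalSquareSums

/-- the Mertens function -/
noncomputable def M (u : ℝ) : ℝ := ∑ n ∈ Finset.Icc 1 ⌊u⌋₊, ((ArithmeticFunction.moebius n : ℤ) : ℝ)

/-- the point `1/2 + it` -/
noncomputable def pt (t : ℝ) : ℂ := 1 / 2 + t * Complex.I

open Classical in
/-- `1/(ρ ζ'(ρ))` if `ρ = 1/2 + it` is a zero, and `0` otherwise -/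
noncomputable def coeff (t : ℝ) : ℂ :=
  if riemannZeta (pt t) = 0 then 1 / (pt t * deriv riemannZeta (pt t)) else 0

/-- `ζ(1/2 + it) ≠ 0` for `|t| < ℓ` -/
def Gap (l : ℝ) : Prop := ∀ t : ℝ, |t| < l → riemannZeta (pt t) ≠ 0

open Classical in
/-- the mean value of `|∑_{t ∈ T} q_t e^{-itv}|⁴`: the sum of `q_a q̄_b q_c q̄_d` over `a + c = b + d` -/
noncomputable def fourthMoment (T : Finset ℝ) (q : ℝ → ℂ) : ℝ :=
  ∑ a ∈ T, ∑ b ∈ T, ∑ c ∈ T, ∑ d ∈ T,
    if a + c = b + d then (q a * (starRingEnd ℂ) (q b) * (q c * (starRingEnd ℂ) (q d))).re else 0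

/-- no nontrivial additive quadruples -/
def Sidon (T : Finset ℝ) : Prop := ∀ a ∈ T, ∀ b ∈ T, ∀ c ∈ T, ∀ d ∈ T, a + c = b + d →
  (a = b ∧ c = d) ∨ (a = d ∧ c = b)

theorem result :
    (∃ l : ℝ, 0 < l ∧ Gap l) ∧
    ∀ s C : ℝ, (s = 1 ∨ s = -1) → 0 < C →
      (∀ᶠ x : ℝ in atTop, ∫ u in (1:ℝ)..x, (max (s * M u) 0 / u) ^ 2 ≤ C * Real.log x) →
      ∀ l : ℝ, Gap l → ∀ T : Finset ℝ, (∀ a ∈ T, ∀ b ∈ T, |a - b| < l) →
        (∀ q : ℝ → ℂ, ‖∑ t ∈ T, q t * coeff t‖ ^ 2 ≤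
          2 * C * (Real.sqrt (fourthMoment T q) + ∑ t ∈ T, ‖q t‖ ^ 2)) ∧
        (Sidon T → ∑ t ∈ T, ‖coeff t‖ ^ 2 ≤ 2 * (1 + Real.sqrt 2) * C) :=
  ⟨Pool.Agent.Y853.HM.exists_gap, fun _ _ hs hC h _ hl T hT =>
    ⟨fun q => Pool.Agent.Y853.HM.local_dual hs hC h hl T hT q,
      fun hS => Pool.Agent.Y853.HM.local_sidon hs hC h hl T hT hS⟩⟩

end Pool.Agent.Results.MP_323ce2_nt.LocalSquareSums
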